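import Pool.Agent.H98.ABCR.Stmts

set_option autoImplicit false

namespace Pool.Agent.H98.ABCR

open Finset Polynomial

private lemma rad_step (K n : ℕ) (hn : n ≠ 0) :
    ((K : ℝ) + 1) ^ om n ≤ ∑ d ∈ n.divisors, (K : ℝ) ^ om d := by
  classical
  have h1 : ((K : ℝ) + 1) ^ om n = ∑ t ∈ n.primeFactors.powerset, (K : ℝ) ^ t.card := by
    rw [om, ← Finset.sum_pow_mul_eq_add_pow]
    refine Finset.sum_congr rfl fun t _ => by simp
  have hpr : ∀ t ∈ n.primeFactors.powerset, ∀ p ∈ t, p.Prime := fun t ht p hp =>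
    Nat.prime_of_mem_primeFactors (Finset.mem_powerset.mp ht hp)
  have hpf : ∀ t ∈ n.primeFactors.powerset, (∏ p ∈ t, p).primeFactors = t := fun t ht =>
    Nat.primeFactors_prod (hpr t ht)
  have hinj : Set.InjOn (fun t : Finset ℕ => ∏ p ∈ t, p) (n.primeFactors.powerset : Set (Finset ℕ)) := by
    intro t ht u hu htu
    have := congrArg Nat.primeFactors htu
    simp only at this
    rwa [hpf t ht, hpf u hu] at this
  have h2 : ∑ t ∈ n.primeFactors.powerset, (K : ℝ) ^ t.card =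
      ∑ d ∈ n.primeFactors.powerset.image (fun t => ∏ p ∈ t, p), (K : ℝ) ^ om d := by
    rw [Finset.sum_image hinj]
    refine Finset.sum_congr rfl fun t ht => ?_
    rw [om, hpf t ht]
  rw [h1, h2]
  refine Finset.sum_le_sum_of_subset_of_nonneg ?_ fun d _ _ => by positivity
  intro d hd
  obtain ⟨t, ht, rfl⟩ := Finset.mem_image.mp hd
  rw [Nat.mem_divisors]
  refine ⟨?_, hn⟩
  exact (Finset.prod_dvd_prod_of_subset _ _ _ (Finset.mem_powerset.mp ht)).trans
    (Nat.prod_primeFactors_dvd n)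

private lemma rad_conv (N : ℕ) (f g : ℕ → ℝ) (hf : ∀ n, 0 ≤ f n) (hg : ∀ n, 0 ≤ g n) :
    ∑ n ∈ Icc 1 N, ∑ x ∈ n.divisorsAntidiagonal, f x.1 * g x.2 ≤
      (∑ n ∈ Icc 1 N, f n) * ∑ n ∈ Icc 1 N, g n := by
  classical
  rw [Finset.sum_mul_sum, ← Finset.sum_product']
  have h1 : ∀ n ∈ Icc 1 N, ∑ x ∈ n.divisorsAntidiagonal, f x.1 * g x.2 =
      ∑ x ∈ ((Icc 1 N ×ˢ Icc 1 N).filter (fun x => x.1 * x.2 ≤ N)).filter (fun x => x.1 * x.2 = n),
        f x.1 * g x.2 := by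
    intro n hn
    rw [Finset.mem_Icc] at hn
    refine Finset.sum_congr ?_ fun _ _ => rfl
    ext x
    simp only [Nat.mem_divisorsAntidiagonal, Finset.mem_filter, Finset.mem_product, Finset.mem_Icc]
    constructor
    · rintro ⟨h, h0⟩
      have hx1 : x.1 ≠ 0 := by rintro h'; rw [h', zero_mul] at h; omega
      have hx2 : x.2 ≠ 0 := by rintro h'; rw [h', mul_zero] at h; omega
      have h3 : x.1 ≤ x.1 * x.2 := Nat.le_mul_of_pos_right _ (Nat.pos_of_ne_zero hx2)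
      have h4 : x.2 ≤ x.1 * x.2 := Nat.le_mul_of_pos_left _ (Nat.pos_of_ne_zero hx1)
      refine ⟨⟨⟨⟨by omega, by omega⟩, ⟨by omega, by omega⟩⟩, by omega⟩, h⟩
    · rintro ⟨_, h⟩
      exact ⟨h, by omega⟩
  rw [Finset.sum_congr rfl h1, Finset.sum_fiberwise_of_maps_to]
  · refine Finset.sum_le_sum_of_subset_of_nonneg (Finset.filter_subset _ _) fun x _ _ =>
      mul_nonneg (hf _) (hg _)
  · intro x hx
    simp only [Finset.mem_filter, Finset.mem_product, Finset.mem_Icc] at hx ⊢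
    refine ⟨?_, hx.2⟩
    exact Nat.mul_pos hx.1.1.1 hx.1.2.1

private lemma rad_main (N K : ℕ) (hK : 1 ≤ K) :
    ∑ n ∈ Icc 1 N, (K : ℝ) ^ om n / n ≤ (∑ n ∈ Icc 1 N, (1 : ℝ) / n) ^ K := by
  induction K, hK using Nat.le_induction with
  | base => simp
  | succ K hK ih =>
    have h1 : ∑ n ∈ Icc 1 N, ((K + 1 : ℕ) : ℝ) ^ om n / n ≤
        ∑ n ∈ Icc 1 N, ∑ x ∈ n.divisorsAntidiagonal, ((K : ℝ) ^ om x.1 / x.1) * (1 / x.2) := by
      refine Finset.sum_le_sum fun n hn => ?_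
      rw [Finset.mem_Icc] at hn
      have hn0 : n ≠ 0 := by omega
      have h2 := rad_step K n hn0
      have h3 : ∑ x ∈ n.divisorsAntidiagonal, ((K : ℝ) ^ om x.1 / x.1) * (1 / x.2) =
          (∑ d ∈ n.divisors, (K : ℝ) ^ om d) / n := by
        have h4 := Nat.sum_divisorsAntidiagonal (n := n) (fun d _ => (K : ℝ) ^ om d)
        rw [← h4, Finset.sum_div]
        refine Finset.sum_congr rfl fun x hx => ?_
        rw [Nat.mem_divisorsAntidiagonal] at hx
        rw [← hx.1]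
        push_cast
        rw [div_mul_div_comm, mul_one]
      rw [h3]
      push_cast
      gcongr
    refine h1.trans ((rad_conv N (fun n => (K : ℝ) ^ om n / n) (fun n => 1 / n)
      (fun n => by positivity) (fun n => by positivity)).trans ?_)
    rw [pow_succ]
    exact mul_le_mul_of_nonneg_right ih (Finset.sum_nonneg fun n _ => by positivity)

theorem rad_thm : S_RAD := by
  intro K Y hK hY
  have hH : ∑ n ∈ Icc 1 ⌊Y⌋₊, (1 : ℝ) / n ≤ 1 + Real.log Y := by
    have := harmonic_floor_le_one_add_log Y hY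
    rw [harmonic_eq_sum_Icc] at this
    push_cast at this
    simpa [one_div] using this
  have h2 : ∑ n ∈ Icc 1 ⌊Y⌋₊, (K : ℝ) ^ om n / n ≤ (1 + Real.log Y) ^ K :=
    (rad_main _ K hK).trans (pow_le_pow_left₀ (Finset.sum_nonneg fun n _ => by positivity) hH K)
  refine ⟨?_, h2⟩
  have h3 : ∑ n ∈ Icc 1 ⌊Y⌋₊, (K : ℝ) ^ om n ≤ Y * ∑ n ∈ Icc 1 ⌊Y⌋₊, (K : ℝ) ^ om n / n := by
    rw [Finset.mul_sum]
    refine Finset.sum_le_sum fun n hn => ?_
    rw [Finset.mem_Icc] at hn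
    have hn1 : (1 : ℝ) ≤ n := by exact_mod_cast hn.1
    have hnY : (n : ℝ) ≤ Y := (Nat.le_floor_iff (by linarith)).mp hn.2
    rw [← mul_div_assoc, le_div_iff₀ (by linarith), mul_comm]
    exact mul_le_mul_of_nonneg_right hnY (by positivity)
  exact h3.trans (mul_le_mul_of_nonneg_left h2 (by linarith))

end Pool.Agent.H98.ABCR
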